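import Pool.Agent.helper24.CG.Spec

set_option autoImplicit false

namespace Pool.Agent.helper24.CG

open Finset

theorem HLN_sum {α : Type} [DecidableEq α] (S : Finset α) : ∀ H : List (Finset α),
    H.Pairwise Disjoint →
    (H.map fun E => (E ∩ S).card).sum = (S.filter fun e => ∃ E ∈ H, e ∈ E).card := by
  intro H
  induction H with
  | nil => intro _; simp
  | cons E H ih =>
    intro hd
    rw [List.pairwise_cons] at hd
    rw [List.map_cons, List.sum_cons, ih hd.2]
    have h1 : (S.filter fun e => ∃ E' ∈ E :: H, e ∈ E') =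
        (E ∩ S) ∪ (S.filter fun e => ∃ E' ∈ H, e ∈ E') := by
      ext e
      simp only [mem_filter, mem_union, mem_inter, List.mem_cons, exists_eq_or_imp]
      tauto
    rw [h1, card_union_of_disjoint]
    rw [Finset.disjoint_left]
    intro e he1 he2
    rw [mem_inter] at he1
    rw [mem_filter] at he2
    obtain ⟨_, E', hE', heE'⟩ := he2
    exact Finset.disjoint_left.1 (hd.1 E' hE') he1.1 heE'

theorem HLN_len {α : Type} [DecidableEq α] (S : Finset α) : ∀ H : List (Finset α),
    (∀ E ∈ H, E ⊆ S ∧ E.Nonempty) → H.length ≤ (H.map fun E => (E ∩ S).card).sum := by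
  intro H
  induction H with
  | nil => intro _; simp
  | cons E H ih =>
    intro h
    rw [List.map_cons, List.sum_cons, List.length_cons]
    have h1 := ih fun E' hE' => h E' (List.mem_cons_of_mem _ hE')
    obtain ⟨h2, h3⟩ := h E List.mem_cons_self
    have h4 : E ∩ S = E := inter_eq_left.2 h2
    rw [h4]
    have h5 := card_pos.2 h3
    omega

theorem HLN : HLN_stmt := by
  intro N m H hH
  have hsum : ∀ S : ES N, (H.map fun E => (E ∩ S).card).sum ≤ S.card := by
    intro S
    rw [HLN_sum S H hH.disj]
    exact card_filter_le _ _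
  refine ⟨?_, ?_, hsum, ?_⟩
  · have h1 := HLN_len (edges N) H fun E hE => ⟨(hH.mem E hE).1, (hH.mem E hE).2.1⟩
    have h2 := hsum (edges N)
    have h3 : (edges N).card ≤ N ^ 2 := by
      unfold edges
      rw [card_powersetCard, card_univ, Fintype.card_fin]
      exact Nat.choose_le_pow N 2
    exact (h1.trans h2).trans h3
  · refine List.Pairwise.imp_of_mem ?_ hH.disj
    intro E F hE _ hEF h
    rw [← h, disjoint_self] at hEF
    exact (hH.mem E hE).2.1.ne_empty hEF
  · intro S hS
    rw [HLN_sum S H hH.disj, filter_true_of_mem hS]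

end Pool.Agent.helper24.CG
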